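import Pool.Agent.Y172.Cov3
import Pool.Agent.Y71.NT.Abh
import Pool.Agent.N136.IS.FG
import Pool.Agent.TH585.SV.Fib9

/-!
Pull-backs of pluricanonical forms from the base of a fibre space.
-/

set_option autoImplicit false
set_option linter.overlappingInstances false
set_option linter.unusedSectionVars false

open FF Pool.Agent.W602.GT Pool.Agent.W603.LV Pool.Agent.TH585.SV
open Pool.Agent.Y172

namespace Pool.Agent.V8H50.MA

theorem ess_sub {K : Type} [Field K] [Algebra ℂ K] (h : Algebra.EssFiniteType ℂ K)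
    (L : IntermediateField ℂ K) : Algebra.EssFiniteType ℂ L :=
  IntermediateField.essFiniteType_iff.2 (Pool.Agent.N136.IS.fg_sub L)

section

variable {K : Type} [Field K] [Algebra ℂ K] {L : IntermediateField ℂ K} {p n : ℕ}

/-- pull-backs on regular vector fields, for any extension -/
theorem pull_any {P : Place ℂ L} {Q : Place ℂ K} {e : ℕ} (h : Over Q P e) {y : Fin p → L}
    {E : Fin p → Derivation ℂ L L} {i0 : Fin p} (hl : Loc P y E i0)
    {D : Fin p → Derivation ℂ K K} (hD : ∀ i, DerReg Q (D i)) (m : ℕ) {z : L} {c : ℝ}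
    (hc : z = 0 ∨ c ≤ P.ord z) :
    GeR Q (m * (e - 1) + e * c) ((Matrix.of fun i j => D i (algebraMap L K (y j))).det ^ m *
      algebraMap L K z) := by
  classical
  have he : (1 : ℤ) ≤ e := by exact_mod_cast h.1
  have hy0 : algebraMap L K (y i0) ≠ 0 := by
    rw [Ne, map_eq_zero]
    exact hl.ne
  have h2 : Ge Q (e - 1) (Matrix.of fun i j => D i (algebraMap L K (y j))).det := by
    rw [← Matrix.det_transpose]
    refine ge_det Q _ (e - 1) (fun a _ => if a = i0 then (e : ℤ) - 1 else 0) (fun a b => ?_)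
      fun σ => ?_
    · change Ge Q (if a = i0 then (e : ℤ) - 1 else 0) (D b (algebraMap L K (y a)))
      split_ifs with ha
      · rw [ha]
        have h3 := ge_der_reg (hD b) (algebraMap L K (y i0))
        rw [h.2, hl.unif, mul_one] at h3
        exact h3
      · exact hD b _ (h.reg.2 (hl.reg a))
    · have h3 : ∑ i, (if σ i = i0 then (e : ℤ) - 1 else 0) = e - 1 := by
        rw [Finset.sum_eq_single (σ.symm i0)]
        · simp
        · intro i _ hi
          rw [if_neg]
          intro h
          exact hi (by rw [← h]; simp)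
        · intro h
          exact absurd (Finset.mem_univ _) h
      exact h3.ge
  have h3 : GeR Q ((e : ℝ) - 1) (Matrix.of fun i j => D i (algebraMap L K (y j))).det := by
    rcases h2 with h2 | h2
    · exact Or.inl h2
    · right
      exact_mod_cast h2
  have h4 : GeR Q (e * c) (algebraMap L K z) := by
    rcases hc with hc | hc
    · left
      rw [hc, map_zero]
    · right
      rw [h.2]
      push_cast
      exact mul_le_mul_of_nonneg_left hc (Nat.cast_nonneg _)
  exact (h3.pow m).mul h4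

/-- **The forms of the base at the places over a place of the base.** -/
theorem base_ver (hess : Algebra.EssFiniteType ℂ K) (hp : Algebra.trdeg ℂ L = p)
    (hn : Algebra.trdeg ℂ K = n) {x : Fin p → L} (hx : IsTranscendenceBasis ℂ x)
    {E : Fin p → Derivation ℂ L L} (hE : ∀ i j, E i (x j) = if i = j then 1 else 0)
    {m : ℕ} {η : (Fin p → Derivation ℂ L L) → L} (hη : IsPluri m η) {Q : Place ℂ K}
    (hQ : Divisorial n Q) {v : Place ℂ L} {e : ℕ} (h : Over Q v e) {c : ℝ}
    (hv : Divisorial p v → ∀ D : Fin p → Derivation ℂ L L, (∀ i, DerReg v (D i)) →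
      η D = 0 ∨ c ≤ v.ord (η D))
    {D : Fin p → Derivation ℂ K K} (hD : ∀ i, DerReg Q (D i)) :
    GeR Q (m * (e - 1) + e * c) ((mtx (fun j => (x j : K)) D).det ^ m * (η E : K)) := by
  have hessL : Algebra.EssFiniteType ℂ L := ess_sub hess L
  have hvd : Divisorial p v := Pool.Agent.Y71.NT.t_abh L K p n hp hn Q v e h hQ
  obtain ⟨y, F, i0, hl⟩ := exists_loc hp hvd
  have h1 := Pool.Agent.W73.PG.PULL.form_eq (L := K) x y hx hl.bas E F hE hl.dual
    (m := m) η hη D
  have h2 := pull_any h hl hD m (hv hvd F hl.pres)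
  rw [← h1] at h2
  exact h2

/-- the forms of the base at the places which are trivial on the base -/
theorem base_hor {Q : Place ℂ K} (h : ∀ f ∈ L, f ≠ 0 → Q.ord f = 0) {x : Fin p → L}
    {D : Fin p → Derivation ℂ K K} (hD : ∀ i, DerReg Q (D i)) (m : ℕ) (z : L) :
    Ge Q 0 ((mtx (fun j => (x j : K)) D).det ^ m * (z : K)) := by
  have h0 : ∀ z : L, Ge Q 0 (z : K) := by
    intro z
    by_cases hz : (z : K) = 0
    · exact Or.inl hz
    · exact Or.inr (h z z.2 hz).ge
  have h1 : Ge Q 0 (mtx (fun j => (x j : K)) D).det :=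
    Pool.Agent.W619.PQ.ge_det Q _ fun i j => hD i _ (h0 (x j))
  have h2 := (h1.pow m).mul (h0 z)
  simpa using h2

/-- a frame adapted to a transcendence basis of a subfield -/
theorem exists_frame_sub {s : ℕ} (hK : Algebra.trdeg ℂ K = (p + s : ℕ))
    (hp : Algebra.trdeg ℂ L = p) {x : Fin p → L} (hx : IsTranscendenceBasis ℂ x) :
    ∃ (u : Fin s → K) (Dt : Fin p → Derivation ℂ K K) (Du : Fin s → Derivation ℂ K K),
      Frame (fun j => (x j : K)) u Dt Du ∧ ∀ f ∈ L, Hz Du f := by
  classical
  have htrs : Algebra.trdeg L K = s := by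
    have h1 := trdeg_add_eq ℂ L (A := K)
    rw [hp, hK] at h1
    push_cast at h1
    rw [add_comm, add_comm (p : Cardinal)] at h1
    exact (Cardinal.add_right_inj_of_lt_aleph0 (Cardinal.natCast_lt_aleph0 (n := p))).mp h1
  obtain ⟨t, ht⟩ := exists_isTranscendenceBasis L K
  have h1 := ht.cardinalMk_eq_trdeg
  rw [htrs] at h1
  obtain ⟨φ⟩ : Nonempty (Fin s ≃ t) := by
    rw [← Cardinal.eq, Cardinal.mk_fin]
    exact h1.symm
  obtain ⟨u, hu⟩ : ∃ u : Fin s → K, IsTranscendenceBasis L u :=
    ⟨fun i => (φ i : K), ht.comp_equiv φ⟩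
  have h2 := hx.1.sumElim_comp hu.1
  have h3 : (algebraMap L K ∘ x) = fun j => (x j : K) := rfl
  rw [h3] at h2
  have h4 : AlgebraicIndependent ℂ (Sum.elim (fun j => (x j : K)) u) := by
    have := h2.comp (Equiv.sumComm (Fin p) (Fin s)) (Equiv.injective _)
    have h5 : (Sum.elim u fun j => (x j : K)) ∘ (Equiv.sumComm (Fin p) (Fin s)) =
        Sum.elim (fun j => (x j : K)) u := by
      funext i
      rcases i with i | i <;> rfl
    rwa [h5] at this
  have h6 : IsTranscendenceBasis ℂ (Sum.elim (fun j => (x j : K)) u) := by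
    refine h4.isTranscendenceBasis_of_trdeg_le ?_ ?_
    · rw [hK]
      exact Cardinal.natCast_lt_aleph0
    · rw [hK, Cardinal.mk_sum, Cardinal.mk_fin, Cardinal.mk_fin]
      push_cast
      simp
  obtain ⟨Dt, Du, F⟩ := exists_frame h6
  refine ⟨u, Dt, Du, F, fun f hf l => ?_⟩
  obtain ⟨D, hD⟩ : ∃ D : Derivation ℂ L K, ∀ g : L, D g = Du l (g : K) :=
    ⟨(Du l).compAlgebraMap L, fun _ => rfl⟩
  have h7 : ∀ j, D (x j) = 0 := fun j => by rw [hD]; exact F.ut l j
  have h8 := Pool.Agent.W619.TW.der_zero D x hx h7 ⟨f, hf⟩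
  rw [hD] at h8
  exact h8

end

end Pool.Agent.V8H50.MA
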