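import Pool.Agent.V8H50.MA.Mod

/-!
The Kodaira dimension of pairs with a family of log canonical arrangements of hyperplanes over an
arbitrary base.
-/

set_option autoImplicit false
set_option linter.overlappingInstances false
set_option linter.unusedSectionVars false

open FF Pool.Agent.W602.GT Pool.Agent.W603.LV Pool.Agent.TH585.SV Pool.Agent.TH766.MC
open Pool.Agent.Y172 Pool.Agent.Y191

namespace Pool.Agent.V8H50.MA

theorem over_uniq {K : Type} [Field K] [Algebra ℂ K] {L : IntermediateField ℂ K} {P : Place ℂ K}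
    {v v' : Place ℂ L} {e e' : ℕ} (h : Over P v e) (h' : Over P v' e') : v = v' ∧ e = e' := by
  have h1 : (e : ℤ) ∣ e' := by
    obtain ⟨t, -, ht⟩ := v'.surj
    refine ⟨v.ord t, ?_⟩
    rw [← h.2, h'.2, ht, mul_one]
  have h2 : (e' : ℤ) ∣ e := by
    obtain ⟨t, -, ht⟩ := v.surj
    refine ⟨v'.ord t, ?_⟩
    rw [← h'.2, h.2, ht, mul_one]
  have he : e = e' := Nat.dvd_antisymm (by exact_mod_cast h1) (by exact_mod_cast h2)
  subst he
  have h3 : v.ord = v'.ord := by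
    funext f
    have h4 := (h.2 f).symm.trans (h'.2 f)
    have h5 : (e : ℤ) ≠ 0 := by
      have := h.1
      omega
    exact mul_left_cancel₀ h5 h4
  refine ⟨?_, rfl⟩
  cases v
  cases v'
  congr

section

variable {K K' : Type} [Field K] [Field K'] [Algebra ℂ K] [Algebra ℂ K'] [Algebra K K']
  [IsScalarTower ℂ K K'] {c : ℕ} {r q : Fin c → ℕ}
variable [FiniteDimensional K K']
variable {A : ∀ j, Fin (q j) → Fin (r j + 1) → K'} {u : (Σ j, Fin (r j)) → K'}
variable {L : IntermediateField ℂ K} {w : ∀ j, Fin (q j) → ℚ}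

theorem trdeg_sub {p e : ℕ} (hp : Algebra.trdeg ℂ L = p) (hK : Algebra.trdeg ℂ K = (p + e : ℕ)) :
    Algebra.trdeg L K = e := by
  have h1 := trdeg_add_eq ℂ L (A := K)
  rw [hp, hK] at h1
  push_cast at h1
  rw [add_comm, add_comm (p : Cardinal)] at h1
  exact (Cardinal.add_right_inj_of_lt_aleph0 (Cardinal.natCast_lt_aleph0 (n := p))).mp h1

/-- the general form of the theorem -/
theorem mod_gen {p e a lam M : ℕ} (hess : Algebra.EssFiniteType ℂ K)
    (hp : Algebra.trdeg ℂ L = p) (hK : Algebra.trdeg ℂ K = (p + e : ℕ)) (hM : 0 < M)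
    (hA : LcArr (upF K' L) A w) (σ : (Σ j, Fin (r j)) ≃ Fin e)
    (hl : ∀ j i, lmv A u j i ≠ 0) (hw0 : ∀ j i, 0 ≤ w j i)
    (hws : ∀ j, (r j + 1 : ℚ) ≤ ∑ i, w j i)
    {s : Fin (lam + 1) → ∀ j, Fin (q j) → ℕ} {C : Fin (lam + 1) → K'}
    (hadm : ∀ b, Adm r q w M (s b)) (hCa : ∀ b, IsAlgebraic (upF K' L) (C b))
    (hne : ∃ G : Fin e → Derivation (upF K' L) K' K',
        movf σ A u M (s 0) (C 0) (fun i => (G i).restrictScalars ℂ) ≠ 0 ∧
        AlgebraicIndependent (upF K' L) (fun i : Fin lam =>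
          movf σ A u M (s i.succ) (C i.succ) (fun i => (G i).restrictScalars ℂ) /
          movf σ A u M (s 0) (C 0) (fun i => (G i).restrictScalars ℂ)))
    {X : Set (Place ℂ K)} {δ : Place ℂ K → ℝ} (hH : LcHor L A u w X δ) {B g : Place ℂ L → ℝ}
    (hV : ∀ P ∈ X, ∀ (v : Place ℂ L) (e₀ : ℕ), Over P v e₀ → Divisorial p v →
      ∀ (Q : Place ℂ K') (ε : ℕ), Over Q P ε →
      ∀ G : Fin e → Derivation ℂ K' K', (∀ l j i k, G l (A j i k) = 0) →
      (∀ l, DerLog Q (G l)) → ∀ b,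
        GeR Q (M * (ε * (e₀ * g v))) (movf σ A u M (s b) (C b) G))
    (hδ : ∀ P ∈ X, ∀ (v : Place ℂ L) (e₀ : ℕ), Over P v e₀ → 1 - δ P ≤ e₀ * (1 - B v))
    (hB : KodairaGe p (und L X) (fun v => B v + g v) a) :
    KodairaGe (p + e) X δ (a + lam) := by
  classical
  obtain ⟨δ₂, hδ₂⟩ : ∃ δ₂ : Place ℂ K → ℝ, ∀ P, δ₂ P =
      if h : ∃ (v : Place ℂ L) (e : ℕ), Over P v e then
        -(h.choose_spec.choose * g h.choose) else δ P := ⟨_, fun _ => rfl⟩
  have hv : ∀ (P : Place ℂ K) (v : Place ℂ L) (e₀ : ℕ), Over P v e₀ → δ₂ P = -(e₀ * g v) := by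
    intro P v e₀ h
    have h1 : ∃ (v : Place ℂ L) (e : ℕ), Over P v e := ⟨v, e₀, h⟩
    rw [hδ₂, dif_pos h1]
    obtain ⟨h2, h3⟩ := over_uniq h1.choose_spec.choose_spec h
    rw [h3, h2]
  have ht : ∀ P : Place ℂ K, (∀ f ∈ L, f ≠ 0 → P.ord f = 0) → δ₂ P = δ P := by
    intro P h
    rw [hδ₂, dif_neg]
    rintro ⟨v, e, h1⟩
    exact over_not_triv h1 h
  obtain ⟨M', hM', θ, hθ, hne'⟩ := fib_gen (N := p + e) (X := X) (δ := δ₂) hM (trdeg_sub hp hK) hA σ
    hl hw0 hws hadm hCa (fun P hP htr Q ε hQ c' e' ho => by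
      rw [ht P htr]
      exact hH P hP htr Q ε hQ c' e' ho)
    (fun P hP hPd htr Q ε hQ G hG hlog b => by
      obtain ⟨v, e₀, h⟩ := exists_under htr
      have hvd : Divisorial p v := Pool.Agent.Y71.NT.t_abh L K p (p + e) hp hK P v e₀ h hPd
      have h1 := hV P hP v e₀ h hvd Q ε hQ G hG hlog b
      rw [hv P v e₀ h]
      rcases h1 with h1 | h1
      · exact Or.inl h1
      · right
        refine le_trans (le_of_eq ?_) h1
        ring) hne
  refine comb hess hp hK hB hM' hθ hne' (fun P _ h => (ht P h).le) fun P hP v e₀ h => ?_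
  rw [hv P v e₀ h]
  have h1 := hδ P hP v e₀ h
  have h2 : 1 - (e₀ : ℝ) * (1 - (B v + g v)) + -(e₀ * g v) = 1 - e₀ * (1 - B v) := by ring
  rw [h2]
  linarith

/-- **The form of `I`.** -/
theorem mod_one {p e a M : ℕ} (hess : Algebra.EssFiniteType ℂ K)
    (hp : Algebra.trdeg ℂ L = p) (hK : Algebra.trdeg ℂ K = (p + e : ℕ)) (hM : 0 < M)
    (hA : LcArr (upF K' L) A w) (σ : (Σ j, Fin (r j)) ≃ Fin e)
    (hu : IsTranscendenceBasis (upF K' L) u) (hw0 : ∀ j i, 0 ≤ w j i)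
    (hws : ∀ j, (r j + 1 : ℚ) ≤ ∑ i, w j i)
    {X : Set (Place ℂ K)} {δ : Place ℂ K → ℝ} (hH : LcHor L A u w X δ)
    {I : Fin M → ∀ j, Fin (r j + 1) → Fin (q j)} (hI : ∀ t, cdet A (I t) ≠ 0)
    (hIw : ∀ j i, (cnt I j i : ℚ) ≤ M * w j i) {B g : Place ℂ L → ℝ}
    (hg : ∀ v ∈ und L X, Divisorial p v → ModGe L A I v (g v))
    (hδ : ∀ P ∈ X, ∀ (v : Place ℂ L) (e₀ : ℕ), Over P v e₀ → 1 - δ P ≤ e₀ * (1 - B v))
    (hB : KodairaGe p (und L X) (fun v => B v + g v) a) :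
    KodairaGe (p + e) X δ a := by
  classical
  have hcL : CharZero (upF K' L) :=
    charZero_of_injective_algebraMap (algebraMap ℂ (upF K' L)).injective
  obtain ⟨M₁, hM₁, hl, s, J, hadm, hJ, G0, hG0, -⟩ := lc_forms (lam := 0) (κ := Fin.elim0) hA σ hu
    hw0 hws (fun i => i.elim0) (fun i => i.elim0)
  have hCI : ∏ t, cdet A (I t) ≠ 0 := Finset.prod_ne_zero_iff.2 fun t _ => hI t
  have hCa : IsAlgebraic (upF K' L) (∏ t, cdet A (I t)) := by
    have h1 : (∏ t, cdet A (I t)) ∈ algebraicClosure (upF K' L) K' :=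
      prod_mem fun t _ => mem_algebraicClosure_iff.2 (hA.alg_cdet _)
    exact mem_algebraicClosure_iff.1 h1
  have h1 := mod_gen (lam := 0) (s := fun _ => cnt I) (C := fun _ => ∏ t, cdet A (I t)) hess hp hK
    hM hA σ hl hw0 hws (fun _ => cnt_adm hIw) (fun _ => hCa) ⟨G0, ?_, ?_⟩ hH
    (g := g) (fun P hP v e₀ h hvd Q ε hQ G hG hlog _ =>
      movf_mod σ hI hl (hg v ⟨P, hP, e₀, h⟩ hvd) h hQ hG hlog) hδ hB
  · exact h1
  · intro h0
    apply hG0
    unfold movf at h0 ⊢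
    have h2 : (Matrix.of fun i l => ((G0 i).restrictScalars ℂ) (u (σ.symm l))).det ^ M = 0 := by
      have hden : ∏ j, ∏ i, lmv A u j i ^ cnt I j i ≠ 0 :=
        Finset.prod_ne_zero_iff.2 fun j _ => Finset.prod_ne_zero_iff.2 fun i _ =>
          pow_ne_zero _ (hl j i)
      rw [div_eq_zero_iff] at h0
      exact (mul_eq_zero.1 (h0.resolve_right hden)).resolve_left hCI
    have h3 := (pow_eq_zero_iff hM.ne').1 h2
    rw [h3, zero_pow hM₁.ne', mul_zero, zero_div]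
  · rw [algebraicIndependent_empty_type_iff]
    exact (algebraMap (upF K' L) K').injective

/-- **The forms of `I` and the forms of the fibres.** -/
theorem mod_main {p e a lam M : ℕ} (hess : Algebra.EssFiniteType ℂ K)
    (hp : Algebra.trdeg ℂ L = p) (hK : Algebra.trdeg ℂ K = (p + e : ℕ)) (hM : 0 < M)
    (hA : LcArr (upF K' L) A w) (σ : (Σ j, Fin (r j)) ≃ Fin e)
    (hu : IsTranscendenceBasis (upF K' L) u) (hw0 : ∀ j i, 0 ≤ w j i)
    (hws : ∀ j, (r j + 1 : ℚ) ≤ ∑ i, w j i)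
    {κ : Fin lam → Σ j, Fin (r j)} (hκ : Function.Injective κ)
    (hκs : ∀ i, (r (κ i).1 + 1 : ℚ) < ∑ i', w (κ i).1 i')
    {X : Set (Place ℂ K)} {δ : Place ℂ K → ℝ} (hH : LcHor L A u w X δ)
    {I : Fin M → ∀ j, Fin (r j + 1) → Fin (q j)} (hI : ∀ t, cdet A (I t) ≠ 0)
    (hIw : ∀ j i, (cnt I j i : ℚ) ≤ M * w j i) {B g : Place ℂ L → ℝ}
    (hg0 : ∀ v ∈ und L X, 0 ≤ g v)
    (hg : ∀ v ∈ und L X, Divisorial p v → ModGe L A I v (g v))
    (hδ : ∀ P ∈ X, ∀ (v : Place ℂ L) (e₀ : ℕ), Over P v e₀ → 1 - δ P ≤ e₀ * (1 - B v))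
    {τ : ℝ} (hτ : τ < 1)
    (hB : KodairaGe p (und L X) (fun v => B v + τ * g v) a) :
    KodairaGe (p + e) X δ (a + lam) := by
  classical
  obtain ⟨M₁, hM₁, hl, s, J, hadm, hJ, G0, hG0, hind⟩ := lc_forms hA σ hu hw0 hws hκ hκs
  have hCI : ∏ t, cdet A (I t) ≠ 0 := Finset.prod_ne_zero_iff.2 fun t _ => hI t
  have hCIa : (∏ t, cdet A (I t)) ∈ algebraicClosure (upF K' L) K' :=
    prod_mem fun t _ => mem_algebraicClosure_iff.2 (hA.alg_cdet _)
  have hCJa : ∀ b, (∏ t, cdet A (J b t)) ∈ algebraicClosure (upF K' L) K' := fun b =>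
    prod_mem fun t _ => mem_algebraicClosure_iff.2 (hA.alg_cdet _)
  have hMr : (0 : ℝ) < M := by exact_mod_cast hM
  have hM₁r : (0 : ℝ) < M₁ := by exact_mod_cast hM₁
  -- the number of copies
  obtain ⟨T, hT⟩ := exists_nat_gt (|τ| * M₁ / (M * (1 - τ)))
  have hpos : 0 < (M : ℝ) * (1 - τ) := mul_pos hMr (by linarith)
  have hT1 : |τ| * M₁ < T * (M * (1 - τ)) := (div_lt_iff₀ hpos).1 hT
  have hT0 : 0 < T := by
    have h1 : (0 : ℝ) ≤ |τ| * M₁ / (M * (1 - τ)) := by positivity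
    have h2 : (0 : ℝ) < T := lt_of_le_of_lt h1 hT
    exact_mod_cast h2
  have hM2 : 0 < T * M + M₁ := by omega
  have hM2r : (0 : ℝ) < ((T * M + M₁ : ℕ) : ℝ) := by exact_mod_cast hM2
  obtain ⟨τ', hτ'⟩ : ∃ τ' : ℝ, τ' = T * M / ((T * M + M₁ : ℕ) : ℝ) := ⟨_, rfl⟩
  have hττ' : τ ≤ τ' := by
    rw [hτ', le_div_iff₀ hM2r]
    push_cast
    have h1 : τ ≤ |τ| := le_abs_self τ
    nlinarith
  have hτM : ((T * M + M₁ : ℕ) : ℝ) * τ' = T * M := by
    rw [hτ', mul_div_cancel₀ _ hM2r.ne']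
  have hmov : ∀ b (G : Fin e → Derivation ℂ K' K'),
      movf σ A u (T * M + M₁) (fun j i => T * cnt I j i + s b j i)
        ((∏ t, cdet A (I t)) ^ T * ∏ t, cdet A (J b t)) G =
      movf σ A u M (cnt I) (∏ t, cdet A (I t)) G ^ T *
        movf σ A u M₁ (s b) (∏ t, cdet A (J b t)) G := fun b G =>
    movf_mul σ (cnt I) (s b) _ _ T G
  have hd : (Matrix.of fun i l => ((G0 i).restrictScalars ℂ) (u (σ.symm l))).det ≠ 0 := by
    intro h0
    apply hG0
    unfold movf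
    rw [h0, zero_pow hM₁.ne', mul_zero, zero_div]
  have hden : ∏ j, ∏ i, lmv A u j i ^ cnt I j i ≠ 0 :=
    Finset.prod_ne_zero_iff.2 fun j _ => Finset.prod_ne_zero_iff.2 fun i _ =>
      pow_ne_zero _ (hl j i)
  have hIne : movf σ A u M (cnt I) (∏ t, cdet A (I t)) (fun i => (G0 i).restrictScalars ℂ) ^ T ≠
      0 := by
    refine pow_ne_zero _ ?_
    unfold movf
    exact div_ne_zero (mul_ne_zero hCI (pow_ne_zero _ hd)) hden
  refine mod_gen (lam := lam) (M := T * M + M₁) (s := fun b j i => T * cnt I j i + s b j i)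
    (C := fun b => (∏ t, cdet A (I t)) ^ T * ∏ t, cdet A (J b t)) (B := B)
    (g := fun v => τ' * g v) hess hp hK hM2 hA σ hl hw0 hws (fun b => ?_) (fun b => ?_)
    ⟨G0, ?_, ?_⟩ hH (fun P hP v e₀ h hvd Q ε hQ G hG hlog b => ?_) hδ ?_
  · constructor
    · intro j
      rw [Finset.sum_add_distrib, ← Finset.mul_sum, cnt_sum, (hadm b).1]
      ring
    · intro j i
      have h1 := (hadm b).2 j i
      have h2 := mul_le_mul_of_nonneg_left (hIw j i) (Nat.cast_nonneg (α := ℚ) T)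
      push_cast
      linarith
  · exact mem_algebraicClosure_iff.1 (mul_mem (pow_mem hCIa T) (hCJa b))
  · rw [hmov]
    exact mul_ne_zero hIne hG0
  · simp only [hmov]
    have h1 : (fun i : Fin lam =>
        movf σ A u M (cnt I) (∏ t, cdet A (I t)) (fun i => (G0 i).restrictScalars ℂ) ^ T *
          movf σ A u M₁ (s i.succ) (∏ t, cdet A (J i.succ t))
            (fun i => (G0 i).restrictScalars ℂ) /
        (movf σ A u M (cnt I) (∏ t, cdet A (I t)) (fun i => (G0 i).restrictScalars ℂ) ^ T *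
          movf σ A u M₁ (s 0) (∏ t, cdet A (J 0 t)) (fun i => (G0 i).restrictScalars ℂ))) =
        fun i : Fin lam => movf σ A u M₁ (s i.succ) (∏ t, cdet A (J i.succ t))
            (fun i => (G0 i).restrictScalars ℂ) /
          movf σ A u M₁ (s 0) (∏ t, cdet A (J 0 t)) (fun i => (G0 i).restrictScalars ℂ) := by
      funext i
      rw [mul_div_mul_left _ _ hIne]
    rw [h1]
    exact hind
  · rw [hmov]
    have h1 := movf_mod σ hI hl (hg v ⟨P, hP, e₀, h⟩ hvd) h hQ hG hlog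
    have h2 := movf_log σ (I := J b) (s := s b) (P := Q) (hJ b) hl hG fun l f _ => hlog l f
    have h3 : GeR Q 0 (movf σ A u M₁ (s b) (∏ t, cdet A (J b t)) G) := by
      rcases h2 with h2 | h2
      · exact Or.inl h2
      · right
        exact_mod_cast h2
    refine ((h1.pow T).mul h3).mono (le_of_eq ?_)
    rw [add_zero]
    calc ((T * M + M₁ : ℕ) : ℝ) * (ε * (e₀ * (τ' * g v))) =
        (((T * M + M₁ : ℕ) : ℝ) * τ') * (ε * (e₀ * g v)) := by ring
      _ = T * (M * (ε * (e₀ * g v))) := by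
        rw [hτM]
        ring
  · obtain ⟨N, hN, η, hη, D, hD⟩ := hB
    refine ⟨N, hN, η, fun j => ⟨(hη j).1, fun v hv hvd D hD => ?_⟩, D, hD⟩
    rcases (hη j).2 v hv hvd D hD with h1 | h1
    · exact Or.inl h1
    · right
      refine le_trans ?_ h1
      have h2 := hg0 v hv
      have h3 : τ * g v ≤ τ' * g v := mul_le_mul_of_nonneg_right hττ' h2
      have h4 : (0 : ℝ) ≤ N := Nat.cast_nonneg _
      nlinarith

end

end Pool.Agent.V8H50.MA
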