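import Pool.Agent.Y191.MovDet
import Pool.Agent.Helper386.D5V.Helper399_OverDefs

/-!
Definitions: the places of the base under a set of places, the moduli part of a family of
arrangements.
-/

set_option autoImplicit false

open FF Pool.Agent.Y191

namespace Pool.Agent.V8H50.MA

/-- The places of the base under the elements of `X`. -/
def und {K : Type} [Field K] [Algebra ℂ K] (L : IntermediateField ℂ K) (X : Set (Place ℂ K)) :
    Set (Place ℂ L) :=
  {v | ∃ P ∈ X, ∃ e, Over P v e}

/-- The number of pairs `(t, k)` with `I t j k = i`: the multiplicity of the hyperplane `i` of the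
`j`-th factor in the family `I` of `M` tuples. -/
def cnt {c : ℕ} {r q : Fin c → ℕ} {M : ℕ} (I : Fin M → ∀ j, Fin (r j + 1) → Fin (q j)) (j : Fin c)
    (i : Fin (q j)) : ℕ :=
  ∑ t, ∑ k, if I t j k = i then 1 else 0

/-- The moduli part of the family `A` of arrangements, with respect to the family `I` of `M` tuples
of hyperplanes, is at least `g` at the place `v` of the base: at each place `Q` of `K'` over `v`, of
ramification index `e`, the order of `∏ t, cdet A (I t)` is greater by at least `M e g` than the order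
of `∏ t, cdet A (J t)` for a family `J` of bases with the same multiplicities. -/
def ModGe {K K' : Type} [Field K] [Field K'] [Algebra ℂ K] [Algebra ℂ K'] [Algebra K K']
    {c : ℕ} {r q : Fin c → ℕ} (L : IntermediateField ℂ K)
    (A : ∀ j, Fin (q j) → Fin (r j + 1) → K') {M : ℕ}
    (I : Fin M → ∀ j, Fin (r j + 1) → Fin (q j)) (v : Place ℂ L) (g : ℝ) : Prop :=
  ∀ (Q : Place ℂ K') (e : ℕ), 0 < e →
    (∀ f : L, Q.ord (algebraMap K K' (f : K)) = e * v.ord f) →
    ∃ J : Fin M → ∀ j, Fin (r j + 1) → Fin (q j), (∀ t, cdet A (J t) ≠ 0) ∧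
      (∀ j i, cnt J j i = cnt I j i) ∧
      (M : ℝ) * (e * g) ≤
        ((Q.ord (∏ t, cdet A (I t)) - Q.ord (∏ t, cdet A (J t)) : ℤ) : ℝ)

end Pool.Agent.V8H50.MA
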