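import Pool.Agent.V8H50.MA.Base
import Pool.Agent.V8H50.MA.Defs
import Pool.Agent.Y191.SmallFib

/-!
Products of the forms of the base and of the forms along the fibres.
-/

set_option autoImplicit false
set_option linter.overlappingInstances false
set_option linter.unusedSectionVars false

open FF Pool.Agent.W602.GT Pool.Agent.W603.LV Pool.Agent.TH585.SV Pool.Agent.TH766.MC
open Pool.Agent.Y172 Pool.Agent.Y191

namespace Pool.Agent.V8H50.MA

section

variable {K : Type} [Field K] [Algebra ℂ K] {L : IntermediateField ℂ K} {p n : ℕ}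

theorem over_not_triv {P : Place ℂ K} {v : Place ℂ L} {e : ℕ} (h : Over P v e) :
    ¬ ∀ f ∈ L, f ≠ 0 → P.ord f = 0 := by
  intro hcon
  obtain ⟨t, ht0, ht⟩ := v.surj
  have h1 := h.2 t
  have h2 : P.ord (t : K) = 0 := hcon t t.2 (fun h => ht0 (Subtype.ext h))
  have h3 : P.ord (algebraMap L K t) = 0 := h2
  rw [h3, ht, mul_one] at h1
  have := h.1
  omega

theorem exists_under {P : Place ℂ K} (h : ¬ ∀ f ∈ L, f ≠ 0 → P.ord f = 0) :
    ∃ (v : Place ℂ L) (e : ℕ), Over P v e := by
  push Not at h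
  obtain ⟨f, hf, hf0, hfo⟩ := h
  obtain ⟨e, v, hv⟩ := exists_over (K := L) P ⟨⟨f, hf⟩, hfo⟩
  exact ⟨v, e, hv⟩

/-- **Products of the forms of the base and of the forms along the fibres.** -/
theorem comb {s a lam m : ℕ} (hess : Algebra.EssFiniteType ℂ K) (hp : Algebra.trdeg ℂ L = p)
    (hK : Algebra.trdeg ℂ K = (p + s : ℕ)) {X : Set (Place ℂ K)} {δ δ₂ : Place ℂ K → ℝ}
    {B : Place ℂ L → ℝ} (hB : KodairaGe p (und L X) B a) (hm : 0 < m)
    {θ : Fin (lam + 1) → (Fin s → Derivation L K K) → K}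
    (hθ : ∀ b, FibSec (p + s) m X δ₂ L (θ b))
    (hne : ∃ G, θ 0 G ≠ 0 ∧ AlgebraicIndependent L (fun i : Fin lam => θ i.succ G / θ 0 G))
    (h1 : ∀ P ∈ X, (∀ f ∈ L, f ≠ 0 → P.ord f = 0) → δ₂ P ≤ δ P)
    (h2 : ∀ P ∈ X, ∀ (v : Place ℂ L) (e : ℕ), Over P v e → 1 - e * (1 - B v) + δ₂ P ≤ δ P) :
    KodairaGe (p + s) X δ (a + lam) := by
  classical
  obtain ⟨N, hN, η, hη, D0, hD0, hind⟩ := hB
  obtain ⟨x, E, hx, hE⟩ := exists_crd hp
  obtain ⟨u, Dt, Du, F, hHz⟩ := exists_frame_sub hK hp hx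
  have hco : ∀ j D, η j D = (Matrix.of fun i j => D i (x j)).det ^ N * η j E :=
    fun j D => pluri_coord hx hE (hη j).1 D
  have hd0 : (Matrix.of fun i j => D0 i (x j)).det ^ N ≠ 0 := by
    intro h0
    apply hD0
    rw [hco, h0, zero_mul]
  have hE0 : η 0 E ≠ 0 := by
    intro h0
    apply hD0
    rw [hco, h0, mul_zero]
  have hindE : AlgebraicIndependent ℂ (fun i : Fin a => η i.succ E / η 0 E) := by
    have e1 : (fun i : Fin a => η i.succ D0 / η 0 D0) = fun i : Fin a => η i.succ E / η 0 E := by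
      funext i
      rw [hco i.succ, hco 0, mul_div_mul_left _ _ hd0]
    rwa [e1] at hind
  have hE0' : (η 0 E : K) ≠ 0 := fun h => hE0 (Subtype.ext h)
  obtain ⟨w, hw⟩ : ∃ w : Fin (a + 1) → K, ∀ j, w j = ((η j E / η 0 E : L) : K) :=
    ⟨_, fun _ => rfl⟩
  have hw0 : w 0 = 1 := by
    rw [hw, div_self hE0]
    rfl
  have hwL : ∀ j, w j ∈ L := fun j => by
    rw [hw]
    exact Subtype.coe_prop _
  have hwi : AlgebraicIndependent ℂ (fun i : Fin a => w i.succ) := by
    have h3 : (fun i : Fin a => w i.succ) = L.val ∘ fun i : Fin a => η i.succ E / η 0 E := by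
      funext i
      exact hw _
    rw [h3]
    exact hindE.map' (f := L.val) L.val.injective
  have hfw : ∀ j, (η 0 E : K) * w j = (η j E : K) := by
    intro j
    rw [hw, ← mul_div_cancel_left₀ (η j E) hE0]
    push_cast
    field_simp
  -- the splitting of the boundary
  obtain ⟨δ₁, hδ₁⟩ : ∃ δ₁ : Place ℂ K → ℝ, ∀ P, δ₁ P =
      if h : ∃ (v : Place ℂ L) (e : ℕ), Over P v e then
        1 - h.choose_spec.choose * (1 - B h.choose) else 0 := ⟨_, fun _ => rfl⟩
  have hδ : ∀ P ∈ X, δ₁ P + δ₂ P ≤ δ P := by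
    intro P hP
    rw [hδ₁]
    split_ifs with h
    · exact h2 P hP _ _ h.choose_spec.choose_spec
    · rw [zero_add]
      refine h1 P hP ?_
      by_contra hcon
      exact h (exists_under hcon)
  obtain ⟨ω, h3, D, h4, h5⟩ := F.pairs (κ := a) (w := w) (L := L) hHz
    (fun j => (x j).2) hδ hm (fun b => (hθ b).1)
    (fun P hPX hPd G hG b => (hθ b).2 P hPX hPd G hG) hne (M := N) hN (f := (η 0 E : K)) hE0'
    hw0 hwi hwL
    (fun P hPX hPd D hD j => by
      rw [hfw]
      have key : GeR P (-(N * δ₁ P)) ((mtx (fun j => (x j : K)) D).det ^ N * (η j E : K)) := by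
        rw [hδ₁]
        split_ifs with h
        · obtain ⟨v, hv⟩ : ∃ v, v = h.choose := ⟨_, rfl⟩
          obtain ⟨e, he⟩ : ∃ e, e = h.choose_spec.choose := ⟨_, rfl⟩
          have hov : Over P v e := by
            rw [hv, he]
            exact h.choose_spec.choose_spec
          rw [← he, ← hv]
          have h6 := base_ver hess hp hK hx hE (hη j).1 hPd hov (c := -(N * B v))
            (fun hvd D hD => (hη j).2 v ⟨P, hPX, e, hov⟩ hvd D hD) hD
          refine h6.mono (le_of_eq ?_)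
          ring
        · have h6 := base_hor (x := x) (L := L) (Q := P) (by
            by_contra hcon
            exact h (exists_under hcon)) hD N (η j E)
          rcases h6 with h6 | h6
          · exact Or.inl h6
          · right
            rw [mul_zero, neg_zero]
            exact_mod_cast h6
      rcases key with key | key
      · refine ⟨⌈-(N * δ₁ P)⌉, Or.inl key, Int.le_ceil _⟩
      · exact ⟨_, Or.inr le_rfl, key⟩)
  exact ⟨N * m, Nat.mul_pos hN hm, ω, h3, D, h4, h5⟩

end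

end Pool.Agent.V8H50.MA
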