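import Pool.Agent.Y191.LcLow

/-!
Forms along the fibres from log canonical arrangements on a finite extension, with any estimate at
the places over the places of the base.
-/

set_option autoImplicit false
set_option linter.overlappingInstances false
set_option linter.unusedSectionVars false

open FF Pool.Agent.W602.GT Pool.Agent.W603.LV Pool.Agent.TH585.SV Pool.Agent.W619.PQ
open Pool.Agent.Y172 Pool.Agent.Y191

namespace Pool.Agent.V8H50.MA

section

variable {K K' : Type} [Field K] [Field K'] [Algebra ℂ K] [Algebra ℂ K'] [Algebra K K']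
  [IsScalarTower ℂ K K'] [FiniteDimensional K K'] {c : ℕ} {r q : Fin c → ℕ}
variable {A : ∀ j, Fin (q j) → Fin (r j + 1) → K'} {u : (Σ j, Fin (r j)) → K'}
variable {L : IntermediateField ℂ K} {w : ∀ j, Fin (q j) → ℚ}

/-- **The forms along the fibres**, with any estimate at the places which are not trivial on `L`. -/
theorem fib_gen {N e lam M : ℕ} (hM : 0 < M) (hL : Algebra.trdeg L K = e)
    (hA : LcArr (upF K' L) A w) (σ : (Σ j, Fin (r j)) ≃ Fin e)
    (hl : ∀ j i, lmv A u j i ≠ 0) (hw0 : ∀ j i, 0 ≤ w j i)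
    (hws : ∀ j, (r j + 1 : ℚ) ≤ ∑ i, w j i)
    {v : Fin (lam + 1) → ∀ j, Fin (q j) → ℕ} {C : Fin (lam + 1) → K'}
    (hadm : ∀ b, Adm r q w M (v b)) (hCa : ∀ b, IsAlgebraic (upF K' L) (C b))
    {X : Set (Place ℂ K)} {δ : Place ℂ K → ℝ} (hH : LcHor L A u w X δ)
    (hV : ∀ P ∈ X, Divisorial N P → (¬ ∀ f ∈ L, f ≠ 0 → P.ord f = 0) →
      ∀ (Q : Place ℂ K') (ε : ℕ),
      Over Q P ε → ∀ G : Fin e → Derivation ℂ K' K', (∀ l j i k, G l (A j i k) = 0) →
      (∀ l, DerLog Q (G l)) → ∀ b, movf σ A u M (v b) (C b) G = 0 ∨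
        -((M : ℝ) * (ε * δ P)) ≤ (Q.ord (movf σ A u M (v b) (C b) G) : ℝ))
    (hne : ∃ G : Fin e → Derivation (upF K' L) K' K',
        movf σ A u M (v 0) (C 0) (fun i => (G i).restrictScalars ℂ) ≠ 0 ∧
        AlgebraicIndependent (upF K' L) (fun i : Fin lam =>
          movf σ A u M (v i.succ) (C i.succ) (fun i => (G i).restrictScalars ℂ) /
          movf σ A u M (v 0) (C 0) (fun i => (G i).restrictScalars ℂ))) :
    ∃ M' : ℕ, 0 < M' ∧ ∃ θ : Fin (lam + 1) → (Fin e → Derivation L K K) → K,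
      (∀ b, FibSec N M' X δ L (θ b)) ∧ ∃ G, θ 0 G ≠ 0 ∧
        AlgebraicIndependent L (fun i : Fin lam => θ i.succ G / θ 0 G) := by
  classical
  refine push_gen (M := M) hM hL
    (θ' := fun b G => movf σ A u M (v b) (C b) fun i => (G i).restrictScalars ℂ)
    (fun b => movf_pluri σ _ _) ?_ hne
  intro P hP hPd G G' hG hG' Q ε hQ b
  change movf σ A u M (v b) (C b) (fun i => (G' i).restrictScalars ℂ) = 0 ∨
    -((M : ℝ) * (ε * δ P)) ≤ (Q.ord (movf σ A u M (v b) (C b)
      fun i => (G' i).restrictScalars ℂ) : ℝ)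
  have hkA : ∀ l j i k, ((G' l).restrictScalars ℂ) (A j i k) = 0 := fun l j i k =>
    der_alg (G' l) ((hA.1 j i).2 k)
  have hM0 : (0 : ℝ) ≤ M := Nat.cast_nonneg _
  have hε0 : (0 : ℝ) ≤ ε := Nat.cast_nonneg _
  by_cases htr : ∀ f ∈ L, f ≠ 0 → P.ord f = 0
  · have hup : ∀ f ∈ upF K' L, f ≠ 0 → Q.ord f = 0 := by
      rintro f hf hf0
      obtain ⟨a, ha, rfl⟩ := mem_upF.1 hf
      have ha0 : a ≠ 0 := fun h => hf0 (by rw [h, map_zero])
      rw [hQ.2, htr a ha ha0, mul_zero]
    have hAge : ∀ j i k, Ge Q 0 (A j i k) := fun j i k => triv_ge hup ((hA.1 j i).2 k)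
    have hC : Ge Q 0 (C b) := triv_ge hup (hCa b)
    have ho : ∀ j, ∃ c' ε, MOrd Q (A j) (hcd u j) c' ε := fun j =>
      exists_mord (hAge j) ⟨0, by rw [hcd_zero]; exact one_ne_zero⟩ (hl j)
    choose c' e' ho using ho
    have hlo : ∀ j i, Q.ord (lmv A u j i) = c' j + e' j i := fun j i => (ho j).2.2 i
    have hH' := hH P hP htr Q ε hQ c' e' ho
    have hbas : ∀ j, ∃ I : Fin (r j + 1) → Fin (q j),
        (Matrix.of fun k a => A j (I k) a).det ≠ 0 ∧ mx A j (e' j) = ∑ k, e' j (I k) := by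
      intro j
      obtain ⟨I, hI, -⟩ := hA.pos_basis hw0 hws j
      obtain ⟨I', hI', h2⟩ := Finset.exists_mem_eq_sup (Finset.univ.filter
        fun I : Fin (r j + 1) → Fin (q j) => (Matrix.of fun k a => A j (I k) a).det ≠ 0)
        ⟨I, Finset.mem_filter.2 ⟨Finset.mem_univ _, hI⟩⟩ fun I => ∑ k, e' j (I k)
      exact ⟨I', (Finset.mem_filter.1 hI').2, h2⟩
    choose I hI hIm using hbas
    have hd : ∀ j, (Matrix.of fun k a => A j (I j k) a).det ≠ 0 ∧
        Q.ord (Matrix.of fun k a => A j (I j k) a).det = 0 := fun j =>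
      ⟨hI j, triv_ord0 hup (alg_det fun k a => (hA.1 _ _).2 _) (hI j)⟩
    by_cases he : ∃ j i, e' j i ≠ 0
    · rw [if_pos he] at hH'
      have h1 := movf_lc σ (hadm b).1 hC hd hl hkA (ν := ε)
        (lift_det (f := fun l => quo A u I (σ.symm l)) hL hQ hG hG').1 ho
      rcases h1 with h1 | h1
      · exact Or.inl h1
      right
      have h3 : ((∑ j, ((M : ℤ) * ∑ k, (e' j (I j k) : ℤ) - ∑ i, (v b j i : ℤ) * e' j i) -
          M * (ε : ℤ) : ℤ) : ℝ) ≤
          (Q.ord (movf σ A u M (v b) (C b)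
            fun i => (G' i).restrictScalars ℂ) : ℝ) := by exact_mod_cast h1
      refine le_trans ?_ h3
      push_cast
      have h4 : (M : ℝ) * ∑ j, ((mx A j (e' j) : ℝ) - ∑ i, (w j i : ℝ) * e' j i) ≤
          ∑ j, ((M : ℝ) * ∑ k, (e' j (I j k) : ℝ) - ∑ i, (v b j i : ℝ) * e' j i) := by
        rw [Finset.mul_sum]
        refine Finset.sum_le_sum fun j _ => ?_
        rw [hIm j, mul_sub, Finset.mul_sum (f := fun i => (w j i : ℝ) * e' j i)]
        push_cast
        refine sub_le_sub_left (Finset.sum_le_sum fun i _ => ?_) _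
        have h5 : (v b j i : ℝ) ≤ M * w j i := by exact_mod_cast (hadm b).2 j i
        have h6 : (0 : ℝ) ≤ e' j i := Nat.cast_nonneg _
        nlinarith
      have h5 := mul_le_mul_of_nonneg_left hH' hM0
      nlinarith
    · rw [if_neg he] at hH'
      push Not at he
      have h1 := movf_lc σ (hadm b).1 hC hd hl hkA (ν := ε - 1) (by
        have h2 := (lift_det (f := fun l => quo A u I (σ.symm l)) hL hQ hG hG').2 htr
          (fun l => by
            change Q.ord (lmv A u _ _ / lmv A u _ _) = 0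
            rw [Q.ord_div (hl _ _) (hl _ _), hlo, hlo, he, he, sub_self])
        rw [neg_sub]
        exact h2) ho
      rcases h1 with h1 | h1
      · exact Or.inl h1
      right
      have h2 : ∑ j, ((M : ℤ) * ∑ k, (e' j (I j k) : ℤ) - ∑ i, (v b j i : ℤ) * e' j i) = 0 :=
        Finset.sum_eq_zero fun j _ => by simp [he]
      rw [h2, zero_sub] at h1
      have h3 : ((-(M * ((ε : ℤ) - 1)) : ℤ) : ℝ) ≤
          (Q.ord (movf σ A u M (v b) (C b)
            fun i => (G' i).restrictScalars ℂ) : ℝ) := by exact_mod_cast h1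
      refine le_trans ?_ h3
      push_cast
      have h5 := mul_le_mul_of_nonneg_left hH' hM0
      nlinarith
  · have htr' := htr
    push Not at htr
    obtain ⟨a, haL, ha0, hao⟩ := htr
    refine hV P hP hPd htr' Q ε hQ (fun i => (G' i).restrictScalars ℂ) hkA (fun l => ?_) b
    have h2 : DerLog P ((G l).restrictScalars ℂ) := by
      intro f
      by_cases hf : f = 0
      · left
        rw [hf, div_zero]
      · exact log_of_const (a := a) (fun f hf => hG l f hf)
          ((G l).map_algebraMap (⟨a, haL⟩ : L)) hao hf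
    exact lift_log hQ h2 (fun f => hG' l f)

end

end Pool.Agent.V8H50.MA
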