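import Pool.Agent.V8H50.MA.Comb
import Pool.Agent.V8H50.MA.Fib

/-!
The forms of families of arrangements and their moduli part.
-/

set_option autoImplicit false
set_option linter.overlappingInstances false
set_option linter.unusedSectionVars false

open FF Pool.Agent.W602.GT Pool.Agent.W603.LV Pool.Agent.TH585.SV Pool.Agent.TH766.MC
open Pool.Agent.Y172 Pool.Agent.Y191

namespace Pool.Agent.V8H50.MA

section cnt

variable {c : ℕ} {r q : Fin c → ℕ}

theorem cnt_prod {F : Type} [CommMonoid F] {M : ℕ}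
    (I : Fin M → ∀ j, Fin (r j + 1) → Fin (q j)) (j : Fin c) (f : Fin (q j) → F) :
    ∏ t, ∏ k, f (I t j k) = ∏ i, f i ^ cnt I j i := by
  have h1 : ∀ i, f i ^ cnt I j i = ∏ t, ∏ k, if I t j k = i then f i else 1 := by
    intro i
    unfold cnt
    rw [← Finset.prod_pow_eq_pow_sum]
    refine Finset.prod_congr rfl fun t _ => ?_
    rw [← Finset.prod_pow_eq_pow_sum]
    refine Finset.prod_congr rfl fun k _ => ?_
    split_ifs
    · rw [pow_one]
    · rw [pow_zero]
  symm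
  calc ∏ i, f i ^ cnt I j i = ∏ i, ∏ t, ∏ k, (if I t j k = i then f i else 1) :=
        Finset.prod_congr rfl fun i _ => h1 i
    _ = ∏ t, ∏ i, ∏ k, (if I t j k = i then f i else 1) := Finset.prod_comm
    _ = ∏ t, ∏ k, f (I t j k) := by
        refine Finset.prod_congr rfl fun t _ => ?_
        rw [Finset.prod_comm]
        refine Finset.prod_congr rfl fun k _ => ?_
        rw [Finset.prod_ite_eq Finset.univ (I t j k) f, if_pos (Finset.mem_univ _)]

theorem cnt_sum {M : ℕ} (I : Fin M → ∀ j, Fin (r j + 1) → Fin (q j)) (j : Fin c) :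
    ∑ i, cnt I j i = (r j + 1) * M := by
  unfold cnt
  rw [Finset.sum_comm]
  have h1 : ∀ t : Fin M, ∑ i, ∑ k, (if I t j k = i then 1 else 0) = r j + 1 := by
    intro t
    rw [Finset.sum_comm]
    have h2 : ∀ k : Fin (r j + 1), ∑ i, (if I t j k = i then 1 else 0) = 1 := fun k => by
      rw [Finset.sum_ite_eq Finset.univ (I t j k), if_pos (Finset.mem_univ _)]
    rw [Finset.sum_congr rfl fun k _ => h2 k]
    simp
  rw [Finset.sum_congr rfl fun t _ => h1 t, Finset.sum_const, Finset.card_univ, Fintype.card_fin,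
    smul_eq_mul, mul_comm]

theorem cnt_adm {M : ℕ} {w : ∀ j, Fin (q j) → ℚ}
    {I : Fin M → ∀ j, Fin (r j + 1) → Fin (q j)} (h : ∀ j i, (cnt I j i : ℚ) ≤ M * w j i) :
    Adm r q w M (cnt I) := ⟨fun j => cnt_sum I j, h⟩

end cnt

section

variable {K K' : Type} [Field K] [Field K'] [Algebra ℂ K] [Algebra ℂ K'] [Algebra K K']
  [IsScalarTower ℂ K K'] {c : ℕ} {r q : Fin c → ℕ}

variable [FiniteDimensional K K']
variable {A : ∀ j, Fin (q j) → Fin (r j + 1) → K'} {u : (Σ j, Fin (r j)) → K'}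
variable {L : IntermediateField ℂ K} {w : ∀ j, Fin (q j) → ℚ}

/-- the estimate of the form of `I` at the places over the places of the base -/
theorem movf_mod {e M : ℕ} (σ : (Σ j, Fin (r j)) ≃ Fin e)
    {I : Fin M → ∀ j, Fin (r j + 1) → Fin (q j)} (hI : ∀ t, cdet A (I t) ≠ 0)
    (hl : ∀ j i, lmv A u j i ≠ 0) {v : Place ℂ L} {g : ℝ} (hg : ModGe L A I v g)
    {P : Place ℂ K} {e₀ : ℕ} (hP : Over P v e₀) {Q : Place ℂ K'} {ε : ℕ} (hQ : Over Q P ε)
    {G : Fin e → Derivation ℂ K' K'} (hG : ∀ l j i k, G l (A j i k) = 0)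
    (hlog : ∀ l, DerLog Q (G l)) :
    GeR Q (M * (ε * (e₀ * g))) (movf σ A u M (cnt I) (∏ t, cdet A (I t)) G) := by
  obtain ⟨J, hJ0, hJc, hJ⟩ := hg Q (ε * e₀) (Nat.mul_pos hQ.1 hP.1) (fun f => by
    rw [hQ.2]
    have h1 := hP.2 f
    change P.ord (f : K) = _ at h1
    rw [h1]
    push_cast
    ring)
  have hCI : ∏ t, cdet A (I t) ≠ 0 := Finset.prod_ne_zero_iff.2 fun t _ => hI t
  have hCJ : ∏ t, cdet A (J t) ≠ 0 := Finset.prod_ne_zero_iff.2 fun t _ => hJ0 t
  have h1 := movf_log σ (I := J) (s := cnt I) (P := Q) (fun j f => by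
    rw [cnt_prod]
    exact Finset.prod_congr rfl fun i _ => by rw [hJc]) hl hG
    fun l f _ => hlog l f
  have h2 : movf σ A u M (cnt I) (∏ t, cdet A (I t)) G =
      ((∏ t, cdet A (I t)) / ∏ t, cdet A (J t)) *
        movf σ A u M (cnt I) (∏ t, cdet A (J t)) G := by
    unfold movf
    field_simp
  rw [h2]
  by_cases h3 : movf σ A u M (cnt I) (∏ t, cdet A (J t)) G = 0
  · left
    rw [h3, mul_zero]
  right
  have h4 := h1.resolve_left h3
  rw [Q.ord_mul (div_ne_zero hCI hCJ) h3, Q.ord_div hCI hCJ]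
  push_cast at hJ ⊢
  have h5 : (0 : ℝ) ≤ (Q.ord (movf σ A u M (cnt I) (∏ t, cdet A (J t)) G) : ℝ) := by
    exact_mod_cast h4
  have h6 : (M : ℝ) * (ε * (e₀ * g)) = M * (ε * e₀ * g) := by ring
  linarith

/-- the product of two forms -/
theorem movf_mul {K : Type} [Field K] [Algebra ℂ K] {A : ∀ j, Fin (q j) → Fin (r j + 1) → K}
    {u : (Σ j, Fin (r j)) → K} {e M M₁ : ℕ} (σ : (Σ j, Fin (r j)) ≃ Fin e)
    (s s₁ : ∀ j, Fin (q j) → ℕ) (C C₁ : K) (T : ℕ) (G : Fin e → Derivation ℂ K K) :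
    movf σ A u (T * M + M₁) (fun j i => T * s j i + s₁ j i) (C ^ T * C₁) G =
      movf σ A u M s C G ^ T * movf σ A u M₁ s₁ C₁ G := by
  unfold movf
  have h1 : ∏ j, ∏ i, lmv A u j i ^ (T * s j i + s₁ j i) =
      (∏ j, ∏ i, lmv A u j i ^ s j i) ^ T * ∏ j, ∏ i, lmv A u j i ^ s₁ j i := by
    rw [← Finset.prod_pow, ← Finset.prod_mul_distrib]
    refine Finset.prod_congr rfl fun j _ => ?_
    rw [← Finset.prod_pow, ← Finset.prod_mul_distrib]
    refine Finset.prod_congr rfl fun i _ => ?_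
    rw [pow_add, mul_comm T, pow_mul]
  rw [h1, div_pow, mul_pow, pow_add, mul_comm T, pow_mul]
  rw [div_mul_div_comm]
  congr 1
  ring

end

end Pool.Agent.V8H50.MA
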